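import Mathlib

/-!
# Iterated central extensions of a finite group with cyclic abelianization

If `G` is finite, `G = [G,G]⟨z⟩`, and `K 0, K 1, …, K n = 1` are normal subgroups with
`[K j, G] ≤ K (j+1)`, then `|[G,G]|` is bounded in terms of the index of `K 0` only.
-/

set_option autoImplicit false

namespace Pool.Agent.R165.Qd

open Subgroup commutatorElement

section

variable {G : Type*} [Group G]

theorem three_mod (H₁ H₂ H₃ L : Subgroup G) [L.Normal] (h1 : ⁅⁅H₂, H₃⁆, H₁⁆ ≤ L)
    (h2 : ⁅⁅H₃, H₁⁆, H₂⁆ ≤ L) : ⁅⁅H₁, H₂⁆, H₃⁆ ≤ L := by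
  have key : ∀ H : Subgroup G, H ≤ L ↔ H.map (QuotientGroup.mk' L) = ⊥ := by
    intro H
    rw [Subgroup.map_eq_bot_iff, QuotientGroup.ker_mk']
  rw [key] at h1 h2 ⊢
  simp only [Subgroup.map_commutator] at h1 h2 ⊢
  exact Subgroup.commutator_commutator_eq_bot_of_rotate h1 h2

/-- every element of `G` is `a * z ^ i`, `a` in the commutator subgroup -/
def Cyc (G : Type*) [Group G] (z : G) : Prop :=
  ∀ g : G, ∃ a ∈ commutator G, ∃ i : ℕ, g = a * z ^ i

theorem gamma_stable {z : G} (hz : Cyc G z) : commutator G ≤ ⁅commutator G, (⊤ : Subgroup G)⁆ := by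
  set P : Subgroup G := ⁅commutator G, (⊤ : Subgroup G)⁆ with hP
  have hPn : P.Normal := by rw [hP]; infer_instance
  -- the quotient is commutative
  have hcomm : ∀ x y : G ⧸ P, x * y = y * x := by
    have hcen : ∀ a ∈ commutator G, ∀ y : G ⧸ P, (a : G ⧸ P) * y = y * a := by
      intro a ha y
      obtain ⟨g, rfl⟩ := QuotientGroup.mk_surjective y
      rw [← QuotientGroup.mk_mul, ← QuotientGroup.mk_mul]
      have h1 : ⁅a, g⁆ ∈ P := by
        rw [hP]; exact Subgroup.commutator_mem_commutator ha (Subgroup.mem_top g)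
      rw [QuotientGroup.eq]
      have h2 : (a * g)⁻¹ * (g * a) = (g * a)⁻¹ * ⁅a, g⁆⁻¹ * (g * a) := by
        rw [commutatorElement_def]; group
      rw [h2]
      have h3 := hPn.conj_mem _ (P.inv_mem h1) (g * a)⁻¹
      simpa using h3
    intro x y
    obtain ⟨g, rfl⟩ := QuotientGroup.mk_surjective x
    obtain ⟨h, rfl⟩ := QuotientGroup.mk_surjective y
    obtain ⟨a, ha, i, rfl⟩ := hz g
    obtain ⟨b, hb, j, rfl⟩ := hz h
    rw [QuotientGroup.mk_mul, QuotientGroup.mk_mul, QuotientGroup.mk_pow, QuotientGroup.mk_pow]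
    calc (a : G ⧸ P) * (z : G ⧸ P) ^ i * ((b : G ⧸ P) * (z : G ⧸ P) ^ j)
        = (a : G ⧸ P) * ((z : G ⧸ P) ^ i * ((b : G ⧸ P) * (z : G ⧸ P) ^ j)) := by group
      _ = ((z : G ⧸ P) ^ i * ((b : G ⧸ P) * (z : G ⧸ P) ^ j)) * a := hcen a ha _
      _ = (z : G ⧸ P) ^ i * (b : G ⧸ P) * (z : G ⧸ P) ^ j * a := by group
      _ = (b : G ⧸ P) * (z : G ⧸ P) ^ i * (z : G ⧸ P) ^ j * a := by rw [hcen b hb]
      _ = (b : G ⧸ P) * ((z : G ⧸ P) ^ j * (z : G ⧸ P) ^ i * a) := by
          rw [mul_assoc _ ((z : G ⧸ P) ^ i), ← pow_add, add_comm, pow_add]; group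
      _ = (b : G ⧸ P) * (z : G ⧸ P) ^ j * ((z : G ⧸ P) ^ i * a) := by group
      _ = (b : G ⧸ P) * (z : G ⧸ P) ^ j * (a * (z : G ⧸ P) ^ i) := by rw [hcen a ha]
  rw [_root_.commutator_def, Subgroup.commutator_le]
  intro g _ h _
  rw [← QuotientGroup.eq_one_iff]
  have : ((⁅g, h⁆ : G) : G ⧸ P) = ⁅(g : G ⧸ P), (h : G ⧸ P)⁆ := rfl
  rw [this, commutatorElement_eq_one_iff_mul_comm]
  exact hcomm _ _

/-- `K 0` commutes with the commutator subgroup. -/
theorem comm_bot {z : G} (hz : Cyc G z) (K : ℕ → Subgroup G) (hK : ∀ j, (K j).Normal) (n : ℕ)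
    (hn : K n = ⊥) (hc : ∀ j < n, ⁅K j, (⊤ : Subgroup G)⁆ ≤ K (j + 1)) :
    ⁅K 0, commutator G⁆ = ⊥ := by
  have hN : commutator G = ⁅commutator G, (⊤ : Subgroup G)⁆ :=
    le_antisymm (gamma_stable hz) (Subgroup.commutator_le_left _ _)
  have h : ∀ i j, j + i ≤ n → ⁅K j, commutator G⁆ ≤ K (j + i) := by
    intro i
    induction i with
    | zero =>
        intro j _
        have := hK j
        exact (Subgroup.commutator_le_left _ _)
    | succ i ih =>
        intro j hj
        have hL := hK (j + (i + 1))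
        rw [hN, Subgroup.commutator_comm]
        apply three_mod (commutator G) ⊤ (K j) (K (j + (i + 1)))
        · -- ⁅⁅⊤, K j⁆, N⁆
          have h1 : ⁅(⊤ : Subgroup G), K j⁆ ≤ K (j + 1) := by
            rw [Subgroup.commutator_comm]; exact hc j (by omega)
          refine (Subgroup.commutator_mono h1 le_rfl).trans ?_
          have h2 := ih (j + 1) (by omega)
          have e : j + 1 + i = j + (i + 1) := by ring
          rw [e] at h2
          exact h2
        · -- ⁅⁅K j, N⁆, ⊤⁆
          refine (Subgroup.commutator_mono (ih j (by omega)) le_rfl).trans ?_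
          have h2 := hc (j + i) (by omega)
          exact h2
  have h1 := h n 0 (by omega)
  rw [zero_add, hn] at h1
  exact le_bot_iff.mp h1

end

section card

variable (N : Type*) [Group N] [Finite N]

theorem card_commutatorSet_le : Nat.card (commutatorSet N) ≤ (center N).index ^ 2 := by
  classical
  let f : (N ⧸ center N) × (N ⧸ center N) → commutatorSet N :=
    fun p => ⟨⁅p.1.out, p.2.out⁆, p.1.out, p.2.out, rfl⟩
  have hf : Function.Surjective f := by
    rintro ⟨_, g, h, rfl⟩
    refine ⟨((g : N ⧸ center N), (h : N ⧸ center N)), ?_⟩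
    apply Subtype.ext
    show ⁅(Quotient.out (g : N ⧸ center N)), (Quotient.out (h : N ⧸ center N))⁆ = ⁅g, h⁆
    obtain ⟨c, hc⟩ := QuotientGroup.mk_out_eq_mul (center N) g
    obtain ⟨d, hd⟩ := QuotientGroup.mk_out_eq_mul (center N) h
    rw [hc, hd]
    have hc' : ∀ x, (c : N) * x = x * c := fun x => (Subgroup.mem_center_iff.mp c.2 x).symm
    have hd' : ∀ x, (d : N) * x = x * d := fun x => (Subgroup.mem_center_iff.mp d.2 x).symm
    rw [commutatorElement_def, commutatorElement_def, mul_inv_rev, mul_inv_rev]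
    calc g * ↑c * (h * ↑d) * ((↑c)⁻¹ * g⁻¹) * ((↑d)⁻¹ * h⁻¹)
        = g * (c * (h * ↑d)) * ((↑c)⁻¹ * g⁻¹) * ((↑d)⁻¹ * h⁻¹) := by group
      _ = g * ((h * ↑d) * c) * ((↑c)⁻¹ * g⁻¹) * ((↑d)⁻¹ * h⁻¹) := by rw [hc']
      _ = g * h * (d * g⁻¹) * ((↑d)⁻¹ * h⁻¹) := by group
      _ = g * h * (g⁻¹ * d) * ((↑d)⁻¹ * h⁻¹) := by rw [hd']
      _ = g * h * g⁻¹ * h⁻¹ := by group
  have h1 := Nat.card_le_card_of_surjective f hf
  rw [Nat.card_prod] at h1
  rw [pow_two]
  exact h1

theorem card_commutator_le (v : ℕ) (hv : (center N).index ≤ v) :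
    Nat.card (commutator N) ≤ v ^ (v * v ^ 2 + 1) := by
  have h0 : 0 < (center N).index := Nat.pos_of_ne_zero Subgroup.FiniteIndex.index_ne_zero
  have h1 := card_commutator_dvd_index_center_pow N
  have h2 := Nat.le_of_dvd (pow_pos h0 _) h1
  refine h2.trans ?_
  have h3 := card_commutatorSet_le N
  have h4 : (center N).index * Nat.card (commutatorSet N) + 1 ≤ v * v ^ 2 + 1 := by
    apply Nat.add_le_add_right
    exact Nat.mul_le_mul hv (h3.trans (Nat.pow_le_pow_left hv 2))
  calc (center N).index ^ ((center N).index * Nat.card (commutatorSet N) + 1)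
      ≤ v ^ ((center N).index * Nat.card (commutatorSet N) + 1) := Nat.pow_le_pow_left hv _
    _ ≤ v ^ (v * v ^ 2 + 1) := Nat.pow_le_pow_right (by omega) h4

end card

section main

variable {G : Type*} [Group G] [Finite G]

/-- conjugation by `z` on the abelianization of the commutator subgroup -/
noncomputable def sig (z : G) : Abelianization (commutator G) →* Abelianization (commutator G) :=
  Abelianization.map (MulAut.conjNormal z : MulAut (commutator G)).toMonoidHom

theorem sig_of (z : G) (a : commutator G) (h : z * a * z⁻¹ ∈ commutator G) :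
    sig z (Abelianization.of a) = Abelianization.of ⟨z * a * z⁻¹, h⟩ := by
  unfold sig
  rw [Abelianization.map_of]
  congr 1

noncomputable def del (z : G) : Abelianization (commutator G) →* Abelianization (commutator G) where
  toFun m := sig z m * m⁻¹
  map_one' := by simp
  map_mul' a b := by
    rw [map_mul, mul_inv]
    exact mul_mul_mul_comm _ _ _ _

theorem del_pow (z : G) (i : ℕ) (m : Abelianization (commutator G)) :
    ((sig z)^[i] m) * m⁻¹ ∈ (del z).range := by
  induction i with
  | zero => simp [Subgroup.one_mem]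
  | succ i ih =>
      rw [Function.iterate_succ', Function.comp_apply]
      have h1 : sig z ((sig z)^[i] m) * m⁻¹ =
          (sig z ((sig z)^[i] m) * ((sig z)^[i] m)⁻¹) * (((sig z)^[i] m) * m⁻¹) := by group
      rw [h1]
      exact Subgroup.mul_mem _ ⟨_, rfl⟩ ih

theorem sig_iter (z : G) (i : ℕ) (a : commutator G) (h : z ^ i * a * (z ^ i)⁻¹ ∈ commutator G) :
    (sig z)^[i] (Abelianization.of a) = Abelianization.of ⟨z ^ i * a * (z ^ i)⁻¹, h⟩ := by
  induction i with
  | zero =>
      simp
  | succ i ih =>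
      have h' : z ^ i * a * (z ^ i)⁻¹ ∈ commutator G :=
        (inferInstance : (commutator G).Normal).conj_mem _ a.2 _
      rw [Function.iterate_succ', Function.comp_apply, ih h', sig_of z _ (by
        exact (inferInstance : (commutator G).Normal).conj_mem _ h' z)]
      congr 1
      apply Subtype.ext
      show z * (z ^ i * ↑a * (z ^ i)⁻¹) * z⁻¹ = z ^ (i + 1) * ↑a * (z ^ (i + 1))⁻¹
      rw [pow_succ' z i, mul_inv_rev]
      group

theorem del_surj {z : G} (hz : Cyc G z) : Function.Surjective (del z) := by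
  -- the set of elements of `N` with class in the range
  let D : Subgroup G := (((del z).range).comap (Abelianization.of (G := commutator G))).map
    (commutator G).subtype
  have hcn : (commutator G).Normal := inferInstance
  have hD : commutator G ≤ D := by
    rw [commutator_eq_closure, Subgroup.closure_le]
    rintro _ ⟨g, h, rfl⟩
    obtain ⟨a, ha, i, rfl⟩ := hz g
    obtain ⟨b, hb, j, rfl⟩ := hz h
    have h1 : z ^ i * b * (z ^ i)⁻¹ ∈ commutator G := hcn.conj_mem _ hb _
    have h2 : z ^ j * a * (z ^ j)⁻¹ ∈ commutator G := hcn.conj_mem _ ha _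
    let A : commutator G := ⟨a, ha⟩
    let Bb : commutator G := ⟨b, hb⟩
    let B1 : commutator G := ⟨z ^ i * b * (z ^ i)⁻¹, h1⟩
    let A1 : commutator G := ⟨z ^ j * a * (z ^ j)⁻¹, h2⟩
    refine ⟨A * B1 * A1⁻¹ * Bb⁻¹, ?_, ?_⟩
    · show Abelianization.of (A * B1 * A1⁻¹ * Bb⁻¹) ∈ (del z).range
      have e1 := del_pow z i (Abelianization.of Bb)
      have e2 := del_pow z j (Abelianization.of A)
      rw [sig_iter z i Bb h1] at e1
      rw [sig_iter z j A h2] at e2
      have e3 : Abelianization.of (A * B1 * A1⁻¹ * Bb⁻¹) =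
          (Abelianization.of B1 * (Abelianization.of Bb)⁻¹) *
          (Abelianization.of A1 * (Abelianization.of A)⁻¹)⁻¹ := by
        rw [map_mul, map_mul, map_mul, map_inv, map_inv, mul_inv, inv_inv]
        generalize Abelianization.of A = x
        generalize Abelianization.of B1 = y
        generalize Abelianization.of A1 = w
        generalize Abelianization.of Bb = u
        rw [mul_comm x y, mul_assoc, mul_assoc, mul_assoc]
        congr 1
        rw [mul_comm w⁻¹ u⁻¹, mul_left_comm, mul_comm x w⁻¹]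
      rw [e3]
      exact Subgroup.mul_mem _ e1 (Subgroup.inv_mem _ e2)
    · show a * (z ^ i * b * (z ^ i)⁻¹) * (z ^ j * a * (z ^ j)⁻¹)⁻¹ * b⁻¹ = ⁅a * z ^ i, b * z ^ j⁆
      rw [commutatorElement_def]
      have hcz : z ^ i * z ^ j = z ^ j * z ^ i := by rw [← pow_add, add_comm, pow_add]
      have hcz2 : (z ^ j)⁻¹ * (z ^ i)⁻¹ = (z ^ i)⁻¹ * (z ^ j)⁻¹ := by
        rw [← mul_inv_rev, ← mul_inv_rev, hcz]
      have hcz3 : z ^ j * (z ^ i)⁻¹ = (z ^ i)⁻¹ * z ^ j := by
        have : Commute (z ^ j) (z ^ i) := hcz.symm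
        exact this.inv_right
      calc a * (z ^ i * b * (z ^ i)⁻¹) * (z ^ j * a * (z ^ j)⁻¹)⁻¹ * b⁻¹
          = a * z ^ i * b * ((z ^ i)⁻¹ * z ^ j) * a⁻¹ * (z ^ j)⁻¹ * b⁻¹ := by group
        _ = a * z ^ i * b * (z ^ j * (z ^ i)⁻¹) * a⁻¹ * (z ^ j)⁻¹ * b⁻¹ := by rw [hcz3]
        _ = a * z ^ i * (b * z ^ j) * (a * z ^ i)⁻¹ * (b * z ^ j)⁻¹ := by
            rw [mul_inv_rev, mul_inv_rev]; group
  intro m
  obtain ⟨a, rfl⟩ := QuotientGroup.mk_surjective m
  obtain ⟨a', ha', h⟩ := hD a.2
  have h1 : a' = a := Subtype.ext h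
  rw [h1] at ha'
  exact ha'

/-- the main bound -/
theorem bound {z : G} (hz : Cyc G z) (K : ℕ → Subgroup G) (hK : ∀ j, (K j).Normal) (n : ℕ)
    (hn : K n = ⊥) (hc : ∀ j < n, ⁅K j, (⊤ : Subgroup G)⁆ ≤ K (j + 1)) (v : ℕ)
    (hv : (K 0).index ≤ v) : Nat.card (commutator G) ≤ v ^ (v * v ^ 2 + 1) * v := by
  have hcn : (commutator G).Normal := inferInstance
  have hrel : ((K 0).subgroupOf (commutator G)).index ≤ v := by
    have h1 : (K 0).relIndex (commutator G) ∣ (K 0).index := by
      have := hK 0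
      exact Subgroup.relIndex_dvd_index_of_normal _ _
    exact (Nat.le_of_dvd (Nat.pos_of_ne_zero Subgroup.FiniteIndex.index_ne_zero) h1).trans hv
  have hle : ∀ L : Subgroup (commutator G), (K 0).subgroupOf (commutator G) ≤ L → L.index ≤ v := by
    intro L hL
    exact (Nat.le_of_dvd (Nat.pos_of_ne_zero Subgroup.FiniteIndex.index_ne_zero)
      (Subgroup.index_dvd_of_le hL)).trans hrel
  -- center
  have h1 : (K 0).subgroupOf (commutator G) ≤ center (commutator G) := by
    intro k hk
    rw [Subgroup.mem_center_iff]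
    intro g
    have h2 : ⁅(k : G), (g : G)⁆ ∈ ⁅K 0, commutator G⁆ :=
      Subgroup.commutator_mem_commutator hk g.2
    rw [comm_bot hz K hK n hn hc, Subgroup.mem_bot, commutatorElement_eq_one_iff_mul_comm] at h2
    exact Subtype.ext h2.symm
  have h2 := card_commutator_le (commutator G) v (hle _ h1)
  -- abelianization
  have hinj : Function.Injective (del z) := by
    have : Finite (Abelianization (commutator G)) := inferInstance
    exact Finite.injective_iff_surjective.mpr (del_surj hz)
  have h3 : ∀ i ≤ n, ∀ k : commutator G, (k : G) ∈ K (n - i) → Abelianization.of k = 1 := by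
    intro i
    induction i with
    | zero =>
        intro _ k hk
        rw [Nat.sub_zero, hn, Subgroup.mem_bot] at hk
        have : k = 1 := Subtype.ext hk
        rw [this, map_one]
    | succ i ih =>
        intro hi k hk
        have hconj : z * k * z⁻¹ ∈ commutator G := hcn.conj_mem _ k.2 _
        let k1 : commutator G := ⟨z * k * z⁻¹, hconj⟩
        have e1 : ((k1 * k⁻¹ : commutator G) : G) ∈ K (n - i) := by
          have e2 := hc (n - (i + 1)) (by omega)
          have e3 : n - (i + 1) + 1 = n - i := by omega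
          rw [e3] at e2
          have e4 : ⁅(k : G), z⁆ ∈ K (n - i) :=
            e2 (Subgroup.commutator_mem_commutator hk (Subgroup.mem_top z))
          have e5 : ((k1 * k⁻¹ : commutator G) : G) = ⁅(k : G), z⁆⁻¹ := by
            show z * k * z⁻¹ * (k : G)⁻¹ = _
            rw [commutatorElement_inv, commutatorElement_def]
          rw [e5]
          exact Subgroup.inv_mem _ e4
        have e6 := ih (by omega) (k1 * k⁻¹) e1
        rw [map_mul, map_inv] at e6
        have e7 : del z (Abelianization.of k) = 1 := by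
          show sig z (Abelianization.of k) * (Abelianization.of k)⁻¹ = 1
          rw [sig_of z k hconj]
          exact e6
        exact hinj (e7.trans (map_one _).symm)
  have h4 : (K 0).subgroupOf (commutator G) ≤ commutator (commutator G) := by
    intro k hk
    have e1 := h3 n le_rfl k (by rw [Nat.sub_self]; exact hk)
    exact (QuotientGroup.eq_one_iff k).mp e1
  have h5 := hle _ h4
  rw [← Subgroup.card_mul_index (commutator (commutator G))]
  exact Nat.mul_le_mul h2 h5

end main

end Pool.Agent.R165.Qd
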